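import Pool.Agent.H24.SQ2.Proof

/-!
# Q2 of the hyperbolic analytic subspace conjecture fails for Siegel threefolds

`G = GSp₄`, `X = ℍ₂`, `Γ = Γ(N)` with `N ≥ 3`, `S = Γ(N) \ ℍ₂`.
-/

namespace Pool.Agent.Results.MP_1e27bd_ag.SiegelQ2

theorem result (N : ℕ) (hN : 3 ≤ N) : ¬ Pool.Agent.H24.SQ2.Q2 N :=
  Pool.Agent.H24.SQ2.main N hN

end Pool.Agent.Results.MP_1e27bd_ag.SiegelQ2
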