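import Pool.Agent.H16.HAS.Fin

/-!
Q1 of the hyperbolic analytic subspace conjecture: Q1 for a point `z` is a statement on the linear
relations among the coordinates of `ψ z`; for special points `z` it is equivalent to a statement on
the linear relations among the entries `φ i` of `ψ`, and it holds in several cases.

`E = T_o X`, `G` is the geometric structure, `A = ψ⁻¹(T_[o] S)` the arithmetic structure.
`Diag G A x φ` holds for some `x`, `φ` for every Shimura variety and every special point `o`, since
`T_o X` is a direct sum of lines which are rational for both structures.  For `A_g` the `φ i` are the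
numbers `θ j * θ k / π`, `j ≤ k`.  The special points `z` lie in `G`.
-/

set_option autoImplicit false

namespace Pool.Agent.Results.MP_1e27bd_ag.SpecialPoints

open Pool.HAS

theorem result (E : Type) [AddCommGroup E] [Module ℂ E] (G A : Set E) (I : Type) [Fintype I]
    (x : E ≃ₗ[ℂ] (I → ℂ)) (φ : I → ℂ) (h : Diag G A x φ) :
    -- (1) criterion for an arbitrary point `z`
    (∀ z, Q1 G A z ↔ Split φ fun i => φ i * x z i) ∧
    -- (2) the `φ i` which belong to the nonzero coordinates of `z` are proportional
    (∀ z, (∀ i j, x z i ≠ 0 → x z j ≠ 0 → IsAlgebraic ℚ (φ i / φ j)) → Q1 G A z) ∧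
    -- (3) criterion for special points
    (∀ z ∈ G, Q1 G A z ↔ Elem {i | x z i ≠ 0} φ) ∧
    -- (4) at most two nonzero coordinates
    (∀ z ∈ G, ∀ i j, (∀ l, x z l ≠ 0 → l = i ∨ l = j) → Q1 G A z) ∧
    -- (5) one parameter
    (∀ z ∈ G, ∀ (a : I → ℂ) (m : I → ℤ) (y r : ℂ), (∀ i, IsAlgebraic ℚ (a i)) →
      (∀ i, x z i ≠ 0 → φ i = a i * y * r ^ m i) → Q1 G A z) ∧
    -- (6) ball quotients
    (∀ z ∈ G, ∀ (θ₀ : ℂ) (θ : I → ℂ), (∀ i, φ i = θ₀ * θ i / Real.pi) →
      Elem {i | x z i ≠ 0} θ → Q1 G A z) :=
  main E G A I x φ h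

end Pool.Agent.Results.MP_1e27bd_ag.SpecialPoints
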